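import Pool.Agent.helper37.NA.Spec

/-!
# Theorem NA (MP_baa4d7_al), row NFB: the block of `H` over the block of `cz R`
-/

set_option autoImplicit false

namespace Pool.Agent.NAB

open Pool.Agent.helper58.DC Pool.Agent.DI Pool.Agent.GR Pool.Agent.OB Pool.Agent.DR Pool.Agent.FI Pool.Agent.FI3 Pool.Agent.FI4 Pool.Agent.FI4I Pool.Agent.LE Pool.Agent.L5

theorem NFB_mt {G : Type} [Group G] [Finite G] (hCCJ : CCJ_stmt) (hB2 : B2_stmt) {K N : Subgroup G}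
    (hN : N ≤ nz K) {ψ : G → ℂ} (hψ : ψ ∈ IrrOn K) {φ : G → ℂ} {e : ℕ} (hov : OverE K N φ ψ e) {ψ' : G → ℂ}
    (hψ' : ψ' ∈ IrrOn K) :
    ((∃ n ∈ N, ψ' = funMap (MulAut.conj n) ψ) → mt K φ ψ' = e) ∧
    ((¬ ∃ n ∈ N, ψ' = funMap (MulAut.conj n) ψ) → mt K φ ψ' = 0) := by
  classical
  have := Fintype.ofFinite G
  have h1 := ((hCCJ G K N hN ψ hψ).2.1 φ e).1 hov
  have hfin := (hB2 G K).1
  have hK0 : (Nat.card K : ℂ) ≠ 0 := by exact_mod_cast Nat.card_pos.ne'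
  obtain ⟨c, hc⟩ : ∃ c : (G → ℂ) → ℂ, ∀ θ, c θ = if ∃ n ∈ N, θ = funMap (MulAut.conj n) ψ then (e : ℂ) else 0 :=
    ⟨_, fun _ => rfl⟩
  have h3 : ∀ x ∈ K, φ x = ∑ θ ∈ hfin.toFinset, c θ * θ x := by
    intro x hx
    rw [h1 x hx, finsum_mem_eq_finite_toFinset_sum _ hfin]
    refine Finset.sum_congr rfl fun θ _ => ?_
    rw [hc]
    by_cases h : ∃ n ∈ N, θ = funMap (MulAut.conj n) ψ
    · rw [if_pos h, if_pos h]
    · rw [if_neg h, if_neg h]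
  have h2 : ∑ᶠ x ∈ (K : Set G), φ x * ψ' x⁻¹ = ∑ x : G, ∑ θ ∈ hfin.toFinset, c θ * (θ x * ψ' x⁻¹) := by
    rw [finsum_mem_def, finsum_eq_sum_of_fintype]
    refine Finset.sum_congr rfl fun x _ => ?_
    by_cases hx : x ∈ K
    · rw [Set.indicator_of_mem (show x ∈ (K : Set G) from hx), h3 x hx, Finset.sum_mul]
      refine Finset.sum_congr rfl fun θ _ => ?_
      ring
    · rw [Set.indicator_of_notMem (show x ∉ (K : Set G) from hx)]
      symm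
      refine Finset.sum_eq_zero fun θ hθ => ?_
      have h4 : θ ∈ IrrOn K := hfin.mem_toFinset.1 hθ
      rw [((hB2 G K).2 θ h4).2.2.2.1 x hx]
      ring
  have h4 : mt K φ ψ' = c ψ' := by
    unfold Pool.Agent.FI.mt
    rw [div_eq_iff hK0, h2, Finset.sum_comm, Finset.sum_eq_single ψ']
    · rw [← Finset.mul_sum]
      congr 1
      have h5 := ((hB2 G K).2 ψ' hψ').2.2.2.2 ψ' hψ'
      rw [finsum_eq_sum_of_fintype, if_pos rfl] at h5
      exact h5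
    · intro θ hθ hne
      rw [← Finset.mul_sum]
      have h5 := ((hB2 G K).2 θ (hfin.mem_toFinset.1 hθ)).2.2.2.2 ψ' hψ'
      rw [finsum_eq_sum_of_fintype, if_neg hne] at h5
      rw [h5, mul_zero]
    · intro h
      exact absurd (hfin.mem_toFinset.2 hψ') h
  constructor
  · intro h
    rw [h4, hc, if_pos h]
  · intro h
    rw [h4, hc, if_neg h]

theorem NFB (hNFV : NFV_stmt) (hNOB : NOB_stmt) (hCFA : CFA_stmt) (hCCJ : CCJ_stmt) (hTRN : Pool.Agent.FI.TRN_stmt)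
    (hCJG : CJG_stmt) (hB2 : B2_stmt) : NFB_stmt := by
  intro p M hS G _ _ R hRp hcom hnR ψ₁ hψ₁ H hKH φ hφ
  have hRK : R ≤ cz R := by
    intro x hx
    rw [Subgroup.mem_centralizer_iff]
    intro y hy
    exact hcom y hy x hx
  have hRH : R ≤ H := hRK.trans hKH
  have hHnR : H ≤ nz R := by rw [hnR]; exact le_top
  have hall : ∀ g : G, g ∈ nz R := fun g => by rw [hnR]; exact Subgroup.mem_top g
  have hHnK : H ≤ nz (cz R) := by
    intro g _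
    rw [Subgroup.mem_normalizer_iff]
    intro y
    constructor
    · intro hy
      exact cz_conj (hall g) hy
    · intro hy
      have h1 := cz_conj (hall g⁻¹) hy
      have h2 : g⁻¹ * (g * y * g⁻¹) * g⁻¹⁻¹ = y := by group
      rwa [h2] at h1
  obtain ⟨ψ, hψ, e, he, hov⟩ := (hCFA G (cz R) H hKH hHnK).1 φ hφ
  have hinf : H ⊓ cz R = cz R := inf_eq_right.mpr hKH
  have hφψ : SB M H φ ψ := by
    refine hNFV p M hS G R H hRp hRH hHnR φ hφ ψ ?_ e he ?_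
    · rw [hinf]; exact hψ
    · rw [hinf]; exact hov
  have he0 : (e : ℂ) ≠ 0 := by exact_mod_cast he.ne'
  constructor
  · rintro ⟨-, hφ1⟩
    obtain ⟨n, hn, hSB⟩ := hNOB p M hS G (cz R) H hKH hHnK ψ₁ hψ₁ ψ hψ (SB.trans (SB.symm hφ1) hφψ)
    have hψ'I : cjF n ψ ∈ IrrOn (cz R) := ((hCCJ G (cz R) H hHnK ψ hψ).1 n hn).1
    refine ⟨cjF n ψ, ⟨hψ'I, hSB⟩, ?_⟩
    rw [(NFB_mt hCCJ hB2 hHnK hψ hov hψ'I).1 ⟨n, hn, rfl⟩]
    exact he0
  · rintro ⟨ψ', ⟨hψ'I, hψ'1⟩, hmt⟩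
    have h1 : ∃ n ∈ H, ψ' = funMap (MulAut.conj n) ψ := by
      by_contra h
      exact hmt ((NFB_mt hCCJ hB2 hHnK hψ hov hψ'I).2 h)
    obtain ⟨n, hn, hnψ⟩ := h1
    have h2 : SB M H ψ' ψ := by
      rw [hnψ]
      exact ((hCJG G M p n H).2.2.2.2.2.1 hn ψ).1
    have h3 : SB M H ψ' ψ₁ := (hTRN G M (cz R) H hKH ψ' ψ₁ φ hψ'I.1 hψ₁.1 hψ'1).1
    exact ⟨hφ, SB.trans hφψ (SB.trans (SB.symm h2) h3)⟩

end Pool.Agent.NAB
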